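import Pool.Agent.Work.MP_34eaa2_al.Space
import Pool.Agent.Work.MP_34eaa2_al.Distortion

/-!
# Which central elements can act hyperbolically

Let `Γ` be a group with a finite generating set `S` and let `z` be a central element. Then `Γ`
acts on some compact metrizable space with more than three points so that `z` acts as a
hyperbolic homeomorphism if and only if the cyclic group generated by `z` is undistorted in
`Γ`: there is a constant `C` such that every word in `S` that represents `z ^ n` has length at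
least `n / C`.
-/

open Topology Filter

namespace Pool.Agent.Results.MP_34eaa2_al.CentralElements

open Pool.Agent.Work.MP_34eaa2_al

variable {Γ : Type} [Group Γ]

/-- The letters of `l` belong to `S` or are inverses of elements of `S`. -/
def IsWord (S : Finset Γ) (l : List Γ) : Prop := ∀ s ∈ l, s ∈ S ∨ s⁻¹ ∈ S

/-- The powers `z ^ n`, `n = 0, 1, 2, ...`, are undistorted with respect to the word length
given by `S`. -/
def IsUndistorted (S : Finset Γ) (z : Γ) : Prop :=
  ∃ C : ℕ, ∀ l : List Γ, IsWord S l → ∀ n : ℕ, l.prod = z ^ n → n ≤ C * l.length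

theorem isWord_append {S : Finset Γ} {l m : List Γ} (hl : IsWord S l) (hm : IsWord S m) :
    IsWord S (l ++ m) := fun s hs => (List.mem_append.1 hs).elim (hl s) (hm s)

theorem isWord_inv {S : Finset Γ} {l : List Γ} (hl : IsWord S l) :
    IsWord S (l.map (·⁻¹)).reverse := by
  intro s hs
  rw [List.mem_reverse, List.mem_map] at hs
  obtain ⟨t, ht, rfl⟩ := hs
  rcases hl t ht with h1 | h1
  · right; simpa using h1
  · left; exact h1

theorem exists_word {S : Finset Γ} (hS : Subgroup.closure (S : Set Γ) = ⊤) (g : Γ) :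
    ∃ l : List Γ, IsWord S l ∧ l.prod = g := by
  have hg : g ∈ Subgroup.closure (S : Set Γ) := by rw [hS]; trivial
  induction hg using Subgroup.closure_induction with
  | mem x hx => exact ⟨[x], fun s hs => by
      rw [List.mem_singleton] at hs; subst hs; exact Or.inl hx, by simp⟩
  | one => exact ⟨[], fun s hs => by simp at hs, by simp⟩
  | mul x y _ _ hx hy =>
    obtain ⟨l, hl, rfl⟩ := hx
    obtain ⟨m, hm, rfl⟩ := hy
    exact ⟨l ++ m, isWord_append hl hm, by simp⟩
  | inv x _ hx =>
    obtain ⟨l, hl, rfl⟩ := hx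
    exact ⟨_, isWord_inv hl, (List.prod_inv_reverse l).symm⟩

/-- Word length. -/
noncomputable def len (S : Finset Γ) (g : Γ) : ℕ :=
  sInf {n | ∃ l : List Γ, IsWord S l ∧ l.prod = g ∧ l.length = n}

theorem exists_len {S : Finset Γ} (hS : Subgroup.closure (S : Set Γ) = ⊤) (g : Γ) :
    ∃ l : List Γ, IsWord S l ∧ l.prod = g ∧ l.length = len S g := by
  have h : {n | ∃ l : List Γ, IsWord S l ∧ l.prod = g ∧ l.length = n}.Nonempty := by
    obtain ⟨l, hl, hg⟩ := exists_word hS g
    exact ⟨l.length, l, hl, hg, rfl⟩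
  exact Nat.sInf_mem h

theorem len_le {S : Finset Γ} {l : List Γ} (hl : IsWord S l) : len S l.prod ≤ l.length :=
  Nat.sInf_le ⟨l, hl, rfl, rfl⟩

theorem len_mul_le {S : Finset Γ} (hS : Subgroup.closure (S : Set Γ) = ⊤) (g h : Γ) :
    len S (g * h) ≤ len S g + len S h := by
  obtain ⟨l, hl, rfl, h1⟩ := exists_len hS g
  obtain ⟨m, hm, rfl, h2⟩ := exists_len hS h
  rw [← h1, ← h2, ← List.length_append, ← List.prod_append]
  exact len_le (isWord_append hl hm)

theorem len_inv_le {S : Finset Γ} (hS : Subgroup.closure (S : Set Γ) = ⊤) (g : Γ) :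
    len S g⁻¹ ≤ len S g := by
  obtain ⟨l, hl, rfl, h1⟩ := exists_len hS g
  rw [← h1, List.prod_inv_reverse]
  refine (len_le (isWord_inv hl)).trans ?_
  simp

/-- The height function. -/
noncomputable def height (S : Finset Γ) (C : ℕ) (z : Γ) (g : Γ) : ℤ :=
  ⨅ a : ℤ, ((C * len S (z ^ (-a) * g) : ℕ) : ℤ) + a

theorem height_bdd {S : Finset Γ} (hS : Subgroup.closure (S : Set Γ) = ⊤) {C : ℕ} {z : Γ}
    (hC : ∀ l : List Γ, IsWord S l → ∀ n : ℕ, l.prod = z ^ n → n ≤ C * l.length) (g : Γ) :
    BddBelow (Set.range fun a : ℤ => ((C * len S (z ^ (-a) * g) : ℕ) : ℤ) + a) := by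
  refine ⟨-((C * len S g : ℕ) : ℤ), ?_⟩
  rintro _ ⟨a, rfl⟩
  rcases le_or_gt 0 a with ha | ha
  · have h1 : (0 : ℤ) ≤ ((C * len S (z ^ (-a) * g) : ℕ) : ℤ) := Int.natCast_nonneg _
    have h2 : (0 : ℤ) ≤ ((C * len S g : ℕ) : ℤ) := Int.natCast_nonneg _
    simp only
    omega
  · obtain ⟨n, hn⟩ : ∃ n : ℕ, -a = n := ⟨(-a).toNat, by omega⟩
    have h1 : len S (z ^ n) ≤ len S (z ^ (-a) * g) + len S g := by
      have h2 : z ^ n = z ^ (-a) * g * g⁻¹ := by rw [mul_inv_cancel_right, hn, zpow_natCast]
      rw [h2]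
      exact (len_mul_le hS _ _).trans (Nat.add_le_add_left (len_inv_le hS g) _)
    obtain ⟨l, hl, hprod, hlen⟩ := exists_len hS (z ^ n)
    have h3 := hC l hl n hprod
    rw [hlen] at h3
    have h4 : n ≤ C * len S (z ^ (-a) * g) + C * len S g := by
      rw [← mul_add]
      exact h3.trans (Nat.mul_le_mul_left C h1)
    simp only
    push_cast at h4 ⊢
    zify at h4
    linarith

theorem height_mul {S : Finset Γ} (hS : Subgroup.closure (S : Set Γ) = ⊤) {C : ℕ} {z : Γ}
    (hz : ∀ g, Commute z g)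
    (hC : ∀ l : List Γ, IsWord S l → ∀ n : ℕ, l.prod = z ^ n → n ≤ C * l.length) (f g : Γ) :
    height S C z (f * g) ≤ height S C z g + (C * len S f : ℕ) := by
  rw [← sub_le_iff_le_add]
  refine le_ciInf fun a => ?_
  rw [sub_le_iff_le_add]
  refine (ciInf_le (height_bdd hS hC (f * g)) a).trans ?_
  have h1 : z ^ (-a) * (f * g) = f * (z ^ (-a) * g) := by
    rw [← mul_assoc, ((hz f).zpow_left (-a)).eq, mul_assoc]
  rw [h1]
  have h2 := len_mul_le hS f (z ^ (-a) * g)
  have h3 := Nat.mul_le_mul_left C h2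
  zify at h3 ⊢
  linarith

theorem height_z {S : Finset Γ} (hS : Subgroup.closure (S : Set Γ) = ⊤) {C : ℕ} {z : Γ}
    (hz : ∀ g, Commute z g)
    (hC : ∀ l : List Γ, IsWord S l → ∀ n : ℕ, l.prod = z ^ n → n ≤ C * l.length) (g : Γ) :
    height S C z g + 1 ≤ height S C z (g * z) := by
  refine le_ciInf fun a => ?_
  have h1 := ciInf_le (height_bdd hS hC g) (a - 1)
  have h2 : z ^ (-a) * (g * z) = z ^ (-(a - 1)) * g := by
    rw [← (hz g).eq, ← mul_assoc, ← zpow_add_one]
    congr 2
    ring
  rw [h2]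
  change height S C z g ≤ _ at h1
  linarith

theorem result (S : Finset Γ) (hS : Subgroup.closure (S : Set Γ) = ⊤) (z : Γ)
    (hz : z ∈ Subgroup.center Γ) : ActsHyperbolically z ↔ IsUndistorted S z := by
  have hz' : ∀ g, Commute z g := fun g => ((Subgroup.mem_center_iff.1 hz) g).symm
  constructor
  · rintro ⟨X, _, _, _, ρ, hX, α, β, h⟩
    obtain ⟨x, hxα, hxβ⟩ := exists_third hX α β
    exact undistorted_of_hyperbolic ρ h hxα hxβ S fun s _ => hz' s
  · rintro ⟨C, hC⟩
    have hcount : Countable Γ := by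
      have hlist : ∀ l : List Γ, IsWord S l → ∃ m : List (S × Bool),
          (m.map fun p => if p.2 then (p.1 : Γ) else (p.1 : Γ)⁻¹) = l := by
        intro l
        induction l with
        | nil => exact fun _ => ⟨[], rfl⟩
        | cons s l ih =>
          intro hl
          obtain ⟨m, hm⟩ := ih fun t ht => hl t (List.mem_cons_of_mem _ ht)
          rcases hl s List.mem_cons_self with hs | hs
          · exact ⟨(⟨s, hs⟩, true) :: m, by simp [hm]⟩
          · exact ⟨(⟨s⁻¹, hs⟩, false) :: m, by simp [hm]⟩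
      have hsurj : Function.Surjective fun m : List (S × Bool) =>
          (m.map fun p => if p.2 then (p.1 : Γ) else (p.1 : Γ)⁻¹).prod := by
        intro g
        obtain ⟨l, hl, hg⟩ := exists_word hS g
        obtain ⟨m, hm⟩ := hlist l hl
        exact ⟨m, by simp only [hm, hg]⟩
      exact hsurj.countable
    refine actsHyperbolically_of_height z hz' (fun f => C * len S f) (height S C z)
      (fun f g => ?_) (fun g => height_z hS hz' hC g)
    rw [abs_le]
    have h1 := height_mul hS hz' hC f g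
    have h2 := height_mul hS hz' hC f⁻¹ (f * g)
    rw [inv_mul_cancel_left] at h2
    have h3 : ((C * len S f⁻¹ : ℕ) : ℤ) ≤ ((C * len S f : ℕ) : ℤ) := by
      exact_mod_cast Nat.mul_le_mul_left C (len_inv_le hS f)
    constructor <;> linarith

end Pool.Agent.Results.MP_34eaa2_al.CentralElements
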