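import Pool.Agent.Work.MP_34eaa2_al.Space
import Pool.Agent.Work.MP_34eaa2_al.Variation
import Pool.Agent.Work.MP_34eaa2_al.Lifts

/-!
# MP_34eaa2_al: lattices in the universal covering group of Sp(2n, ℝ)

Central elements of infinite order act hyperbolically.
-/

open Topology Filter Matrix Set
open scoped ComplexOrder

namespace Pool.Agent.Results.MP_34eaa2_al.InfiniteCentre

open Pool.Agent.Work.MP_34eaa2_al

variable {n : ℕ}

/-- Matrices `± 1` act trivially on the Siegel upper half space. -/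
private theorem sact_pm {g : symplecticGroup (Fin n) ℝ}
    (hg : (g : Matrix (Fin n ⊕ Fin n) (Fin n ⊕ Fin n) ℝ) = 1 ∨
      (g : Matrix (Fin n ⊕ Fin n) (Fin n ⊕ Fin n) ℝ) = -1) (Z : Siegel n) : sact g Z = Z := by
  rcases hg with hg | hg
  · have : g = 1 := Subtype.ext hg
    rw [this, sact_one]
  · apply Subtype.ext
    change num g Z.1 * (den g Z.1)⁻¹ = Z.1
    have hc : cplx g = fromBlocks (-1) 0 0 (-1) := by
      unfold cplx
      rw [hg, ← Matrix.fromBlocks_one, Matrix.fromBlocks_neg, Matrix.fromBlocks_map, neg_zero,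
        Matrix.map_zero _ Complex.ofReal_zero, Matrix.map_neg _ Complex.ofReal_neg,
        Matrix.map_one _ Complex.ofReal_zero Complex.ofReal_one]
    have h1 : num g Z.1 = -Z.1 := by
      unfold num
      rw [hc, toBlocks_fromBlocks₁₁, toBlocks_fromBlocks₁₂, neg_one_mul, add_zero]
    have h2 : den g Z.1 = -1 := by
      unfold den
      rw [hc, toBlocks_fromBlocks₂₁, toBlocks_fromBlocks₂₂, Matrix.zero_mul, zero_add]
    have h3 : ((-1 : Matrix (Fin n) (Fin n) ℂ))⁻¹ = -1 := by
      apply Matrix.inv_eq_right_inv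
      rw [neg_mul_neg, one_mul]
    rw [h1, h2, h3, neg_mul_neg, mul_one]

/-- Every central element of infinite order acts hyperbolically. -/
private theorem main {Γ : Type} [Group Γ] [Countable Γ] (f : Γ →* USp n) (z : Γ)
    (hz : ∀ g, Commute z g)
    (hz1 : ((f z).g : Matrix (Fin n ⊕ Fin n) (Fin n ⊕ Fin n) ℝ) = 1 ∨
      ((f z).g : Matrix (Fin n ⊕ Fin n) (Fin n ⊕ Fin n) ℝ) = -1)
    (hinf : ∀ k : ℕ, 0 < k → f z ^ k ≠ 1) : ActsHyperbolically z := by
  have hsact : ∀ Z, sact (f z).g Z = Z := sact_pm hz1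
  -- the value of the logarithm
  have hsq : ((f z) ^ 2).g = 1 := by
    rw [pow_two, USp.mul_g]
    apply Subtype.ext
    rw [Submonoid.coe_mul]
    rcases hz1 with h | h
    · rw [h, one_mul]; rfl
    · rw [h, neg_mul_neg, one_mul]; rfl
  obtain ⟨m, hm⟩ := (mem_ker_iff ((f z) ^ 2)).1 hsq
  have hm0 : m ≠ 0 := by
    rintro rfl
    rw [turn_zero] at hm
    exact hinf 2 two_pos hm
  have hφ : ∀ Z, ((f z).φ Z).im = m * Real.pi := by
    intro Z
    have h1 := congrArg (fun x : USp n => x.φ Z) hm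
    simp only [pow_two] at h1
    rw [USp.mul_φ, hsact] at h1
    have h2 : (USp.turn n m).φ Z = m * (2 * Real.pi * Complex.I) := rfl
    rw [h2] at h1
    have h3 := congrArg Complex.im h1
    simp at h3
    linarith
  -- the real height
  obtain ⟨ε, hε, hεm⟩ : ∃ ε : ℝ, |ε| = 1 ∧ 1 ≤ ε * m := by
    rcases lt_or_gt_of_ne hm0 with h | h
    · refine ⟨-1, by simp, ?_⟩
      have : (m : ℝ) ≤ -1 := by exact_mod_cast (by omega : m ≤ -1)
      linarith
    · refine ⟨1, by simp, ?_⟩
      have : (1 : ℝ) ≤ m := by exact_mod_cast (by omega : 1 ≤ m)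
      linarith
  have hpi := Real.pi_pos
  let v : Γ → ℝ := fun g => ε * (((f g).φ (base n)).im / Real.pi)
  have hv1 : ∀ f' g, |v (f' * g) - v g| ≤ |((f f').φ (base n)).im| / Real.pi + n := by
    intro f' g
    have h1 : v (f' * g) - v g = ε * (((f f').φ (sact (f g).g (base n))).im / Real.pi) := by
      simp only [v]
      rw [map_mul, USp.mul_φ, Complex.add_im]
      ring
    rw [h1, abs_mul, hε, one_mul, abs_div, abs_of_pos hpi, div_add' _ _ _ hpi.ne']
    refine div_le_div_of_nonneg_right ?_ hpi.le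
    have h2 := variation (f f') (base n) (sact (f g).g (base n))
    have h3 := abs_sub_abs_le_abs_sub ((f f').φ (sact (f g).g (base n))).im
      ((f f').φ (base n)).im
    linarith
  have hv2 : ∀ g, v g + 1 ≤ v (g * z) := by
    intro g
    have h1 : v (g * z) = v g + ε * m := by
      simp only [v]
      rw [map_mul, USp.mul_φ, hsact, Complex.add_im, hφ]
      field_simp
    rw [h1]
    linarith
  refine actsHyperbolically_of_height z hz
    (fun f' => ⌈|((f f').φ (base n)).im| / Real.pi + n⌉₊ + 1) (fun g => ⌊v g⌋) ?_ ?_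
  · intro f' g
    have h1 := hv1 f' g
    have h2 := Nat.le_ceil (|((f f').φ (base n)).im| / Real.pi + n)
    have h3 := Int.floor_le (v (f' * g))
    have h4 := Int.lt_floor_add_one (v (f' * g))
    have h5 := Int.floor_le (v g)
    have h6 := Int.lt_floor_add_one (v g)
    have h7 := abs_le.1 h1
    have h8 : |((⌊v (f' * g)⌋ - ⌊v g⌋ : ℤ) : ℝ)| ≤
        ((⌈|((f f').φ (base n)).im| / Real.pi + n⌉₊ + 1 : ℕ) : ℝ) := by
      push_cast
      rw [abs_le]
      constructor <;> linarith
    exact_mod_cast h8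
  · intro g
    have h1 := hv2 g
    have h2 : ⌊v g + 1⌋ ≤ ⌊v (g * z)⌋ := Int.floor_le_floor h1
    rwa [Int.floor_add_one] at h2

/-- Matrices with integer entries. -/
private theorem int_mul {g h : Matrix (Fin n ⊕ Fin n) (Fin n ⊕ Fin n) ℝ}
    (hg : ∀ i j, ∃ a : ℤ, g i j = a) (hh : ∀ i j, ∃ a : ℤ, h i j = a) (i j : Fin n ⊕ Fin n) :
    ∃ a : ℤ, (g * h) i j = a := by
  choose a ha using hg
  choose b hb using hh
  refine ⟨∑ k, a i k * b k j, ?_⟩
  rw [Matrix.mul_apply]
  push_cast
  exact Finset.sum_congr rfl fun k _ => by rw [ha, hb]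

/-- The subgroup `Sp(2n, ℤ)` of `Sp(2n, ℝ)`: the symplectic matrices with integer entries. -/
def integral (n : ℕ) : Subgroup (symplecticGroup (Fin n) ℝ) where
  carrier := {g | ∀ i j, ∃ a : ℤ, g.1 i j = a}
  mul_mem' hg hh := int_mul hg hh
  one_mem' := by
    intro i j
    change ∃ a : ℤ, (1 : Matrix (Fin n ⊕ Fin n) (Fin n ⊕ Fin n) ℝ) i j = a
    rw [Matrix.one_apply]
    split_ifs
    · exact ⟨1, by simp⟩
    · exact ⟨0, by simp⟩
  inv_mem' := by
    intro g hg
    have hJ : ∀ i j, ∃ a : ℤ, (J (Fin n) ℝ) i j = a := by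
      have hJ' : ∀ i j, (J (Fin n) ℝ) i j = ((J (Fin n) ℤ) i j : ℤ) := by
        intro i j
        have h1 : (J (Fin n) ℤ).map (Int.castRingHom ℝ) = J (Fin n) ℝ :=
          map_J (Fin n) (Int.castRingHom ℝ)
        rw [← h1]
        rfl
      exact fun i j => ⟨_, hJ' i j⟩
    change ∀ i j, ∃ a : ℤ, (g⁻¹).1 i j = a
    rw [SymplecticGroup.coe_inv]
    refine int_mul (int_mul ?_ ?_) hJ
    · intro i j
      obtain ⟨a, ha⟩ := hJ i j
      exact ⟨-a, by rw [Matrix.neg_apply, ha, Int.cast_neg]⟩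
    · exact fun i j => hg j i

/-- **Theorem.** Let `USp n` be the universal covering group of `Sp(2n, ℝ)`.

(1) If `f : Γ → USp n` is a homomorphism from a countable group and `z ∈ Γ` is a central element
such that `f z` is an element of infinite order lying over `1` or `-1`, then `Γ` acts on some
compact metrizable space with more than three points in such a way that `z` acts as a
hyperbolic homeomorphism.

(2) Let `Γ` be a countable subgroup of `USp n` that contains a subgroup of finite index of the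
preimage of `Sp(2n, ℤ)`. Then some element of `Γ` acts hyperbolically. -/
theorem result (n : ℕ) :
    (∀ (Γ : Type) [Group Γ] [Countable Γ] (f : Γ →* USp n) (z : Γ), (∀ g, Commute z g) →
      (((f z).g : Matrix (Fin n ⊕ Fin n) (Fin n ⊕ Fin n) ℝ) = 1 ∨
        ((f z).g : Matrix (Fin n ⊕ Fin n) (Fin n ⊕ Fin n) ℝ) = -1) →
      (∀ k : ℕ, 0 < k → f z ^ k ≠ 1) → ActsHyperbolically z) ∧
    (∀ (Γ : Subgroup (USp n)) [Countable Γ],
      (Γ.relIndex ((integral n).comap (USp.proj n)) ≠ 0) → ∃ z : Γ, ActsHyperbolically z) := by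
  refine ⟨fun Γ _ _ f z hz hz1 hinf => main f z hz hz1 hinf, fun Γ _ hΓ => ?_⟩
  have h1 : USp.turn n 1 ∈ (integral n).comap (USp.proj n) := by
    rw [Subgroup.mem_comap]
    have : USp.proj n (USp.turn n 1) = 1 := rfl
    rw [this]
    exact one_mem _
  obtain ⟨k, hk, -, hk'⟩ := Subgroup.exists_pow_mem_of_relIndex_ne_zero hΓ h1
  have hpow : ∀ k : ℕ, USp.turn n 1 ^ k = USp.turn n k := by
    intro k
    induction k with
    | zero => rw [pow_zero, Nat.cast_zero, turn_zero]
    | succ k ih => rw [pow_succ, ih, Nat.cast_succ, turn_add]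
  have hmem : USp.turn n k ∈ Γ := by
    rw [← hpow]
    exact hk'.1
  refine ⟨⟨USp.turn n k, hmem⟩, main Γ.subtype _ ?_ (Or.inl rfl) ?_⟩
  · intro g
    exact Subtype.ext (turn_central _ _)
  · intro l hl h
    have h2 : USp.turn n ((k * l : ℕ) : ℤ) = USp.turn n 0 := by
      rw [turn_zero, ← hpow, pow_mul, hpow]
      exact h
    have h3 := turn_injective h2
    have : 0 < k * l := Nat.mul_pos hk hl
    omega

end Pool.Agent.Results.MP_34eaa2_al.InfiniteCentre
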