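import Pool.Agent.Work.MP_34eaa2_al.LinAlg
import Pool.Agent.Work.MP_34eaa2_al.Distortion

/-!
# MP_34eaa2_al: square-zero unipotent elements of small rank in finite-index subgroups of SL(n, ℤ)
-/

open Topology Filter Matrix

namespace Pool.Agent.Results.MP_34eaa2_al.SquareZeroElements

open Pool.Agent.Work.MP_34eaa2_al

section Ring

variable {R : Type*} [Ring R]

private theorem pow_aux {A : R} (h : A * A = 0) (t : ℕ) : (1 + A) ^ t = 1 + t • A := by
  induction t with
  | zero => simp
  | succ t ih =>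
    rw [pow_succ, ih, add_mul, mul_add, mul_add, smul_mul_assoc, smul_mul_assoc, h, smul_zero,
      succ_nsmul, mul_one, mul_one, one_mul]
    abel

private theorem comm_aux {B K N : R} {m : ℕ} (hBK : B * K = m • N) (hKB : K * B = 0)
    (hNK : N * K = 0) (hNB : N * B = 0) (s : ℕ) :
    (1 + s • B) * (1 + s • K) = (1 + (m * s * s) • N) * ((1 + s • K) * (1 + s • B)) := by
  have h1 : (1 + s • K) * (1 + s • B) = 1 + s • K + s • B := by
    rw [mul_add, mul_one, add_mul, one_mul, smul_mul_assoc, mul_smul_comm, hKB, smul_zero,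
      smul_zero, add_zero]
  have h2 : (1 + s • B) * (1 + s • K) = 1 + s • K + s • B + (m * s * s) • N := by
    rw [mul_add, mul_one, add_mul, one_mul, smul_mul_assoc, mul_smul_comm, hBK, smul_smul,
      smul_smul, show s * s * m = m * s * s by ring]
    abel
  rw [h1, h2, add_mul, one_mul, mul_add, mul_add, mul_one, smul_mul_assoc, mul_smul_comm, hNK,
    smul_mul_assoc, mul_smul_comm, hNB, smul_zero, smul_zero, add_zero, add_zero]

end Ring

variable {n : Type*} [Fintype n] [DecidableEq n]

private theorem det_T (v f : n → ℤ) (h : f ⬝ᵥ v = 0) : (1 + vecMulVec v f).det = 1 := by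
  rw [vecMulVec_eq Unit, det_one_add_replicateCol_mul_replicateRow, h, add_zero]

/-- The transvection `1 + v f`. -/
private def T (v f : n → ℤ) (h : f ⬝ᵥ v = 0) : Matrix.SpecialLinearGroup n ℤ :=
  ⟨1 + vecMulVec v f, det_T v f h⟩

omit [DecidableEq n] in
private theorem mul_zero_of {v f w e : n → ℤ} (h : f ⬝ᵥ w = 0) :
    vecMulVec v f * vecMulVec w e = 0 := by
  rw [vecMulVec_mul_vecMulVec, h, zero_smul, vecMulVec_zero]

private theorem T_pow (v f : n → ℤ) (h : f ⬝ᵥ v = 0) (t : ℕ) :
    ((T v f h) ^ t).1 = 1 + t • vecMulVec v f := by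
  have h1 : ((T v f h) ^ t).1 = (1 + vecMulVec v f) ^ t :=
    Matrix.SpecialLinearGroup.coe_pow _ _
  rw [h1, pow_aux (mul_zero_of h)]

/-- The commutator of powers. -/
private theorem T_comm {b a k φ : n → ℤ} {m : ℕ} (hφb : φ ⬝ᵥ b = 0) (hak : a ⬝ᵥ k = 0)
    (hab : a ⬝ᵥ b = 0) (hφk : φ ⬝ᵥ k = m) (s : ℕ) :
    T b φ hφb ^ s * T k a hak ^ s = T b a hab ^ (m * s * s) * (T k a hak ^ s * T b φ hφb ^ s) := by
  apply Subtype.ext
  rw [Matrix.SpecialLinearGroup.coe_mul, Matrix.SpecialLinearGroup.coe_mul,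
    Matrix.SpecialLinearGroup.coe_mul, T_pow, T_pow, T_pow]
  refine comm_aux ?_ (mul_zero_of hab) (mul_zero_of hak) (mul_zero_of hab) s
  rw [vecMulVec_mul_vecMulVec, hφk, vecMulVec_smul]
  exact natCast_zsmul _ _

/-- A product of commuting transvections. -/
private theorem prod_T (b a : n → (n → ℤ)) (hab : ∀ i j, a i ⬝ᵥ b j = 0) (r : ℕ) (L : List n) :
    ((L.map fun j => T (b j) (a j) (hab j j) ^ r).prod).1 =
      1 + r • (L.map fun j => vecMulVec (b j) (a j)).sum := by
  induction L with
  | nil => simp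
  | cons j L ih =>
    rw [List.map_cons, List.prod_cons, Matrix.SpecialLinearGroup.coe_mul, ih, T_pow,
      List.map_cons, List.sum_cons]
    have h1 : ∀ L : List n, vecMulVec (b j) (a j) *
        (L.map fun j => vecMulVec (b j) (a j)).sum = 0 := by
      intro L
      induction L with
      | nil => simp
      | cons l L ih =>
        rw [List.map_cons, List.sum_cons, mul_add, ih, add_zero]
        exact mul_zero_of (hab _ _)
    rw [add_mul, one_mul, mul_add, mul_one, smul_mul_assoc, mul_smul_comm, h1 L, smul_zero,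
      smul_zero, smul_add]
    abel

/-- **Theorem.** Let `Γ` be a subgroup of finite index of `SL(n, ℤ)`, acting by homeomorphisms on
a Hausdorff space `X` with more than three points, and let `g ∈ Γ` have a positive power `u` with
`(u - 1)² = 0` and `2 rank (u - 1) < n` (for example, a power that is a transvection, when
`n ≥ 3`). Then `g` does not act as a hyperbolic homeomorphism. -/
theorem result (Γ : Subgroup (Matrix.SpecialLinearGroup n ℤ)) [Γ.FiniteIndex]
    {X : Type*} [TopologicalSpace X] [T2Space X] (hX : 3 < ENat.card X) (ρ : Γ →* (X ≃ₜ X))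
    (g : Γ) (k : ℕ) (hk : 0 < k) (h2 : ((g.1 ^ k).1 - 1) ^ 2 = 0)
    (hr : 2 * (((g.1 ^ k).1 - 1).map (Int.cast : ℤ → ℚ)).rank < Fintype.card n) :
    ¬ IsHyperbolic (ρ g) := by
  classical
  rintro ⟨α, β, hyp⟩
  have hyp' : IsHyperbolicAt (ρ (g ^ k)) α β := by
    rw [map_pow]
    exact hyp.pow hk
  obtain ⟨x₀, hx₀, hx₀'⟩ := exists_third hX α β
  set N : Matrix n n ℤ := (g.1 ^ k).1 - 1 with hN
  rw [pow_two] at h2
  obtain ⟨Y, d, m, w, φ, hd, hm, hNYN, hNw, hφN, hφw⟩ := exists_integral_data hr
  -- the vectors and functionals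
  set b : n → (n → ℤ) := fun j i => N i j with hb
  set a : n → (n → ℤ) := fun j i => (Y * N) j i with ha
  have hNb : ∀ j, N *ᵥ b j = 0 := by
    intro j
    ext i
    exact congrFun (congrFun h2 i) j
  have haN : ∀ j, a j ᵥ* N = 0 := by
    intro j
    have h3 : (Y * N) * N = 0 := by rw [Matrix.mul_assoc, h2, Matrix.mul_zero]
    ext i
    exact congrFun (congrFun h3 j) i
  have hab : ∀ i j, a i ⬝ᵥ b j = 0 := fun i j => congrFun (haN i) j
  have haw : ∀ j, a j ⬝ᵥ w = 0 := by
    intro j
    have h3 : (Y * N) *ᵥ w = 0 := by rw [← Matrix.mulVec_mulVec, hNw, Matrix.mulVec_zero]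
    exact congrFun h3 j
  have hφb : ∀ j, φ ⬝ᵥ b j = 0 := fun j => congrFun hφN j
  have hsum : (Finset.univ.toList.map fun j => vecMulVec (b j) (a j)).sum = (d : ℤ) • N := by
    rw [Finset.sum_map_toList, ← hNYN]
    ext i l
    rw [Matrix.sum_apply, Matrix.mul_apply]
    rfl
  -- the power
  obtain ⟨P, hP, hPΓ⟩ : ∃ P : ℕ, 0 < P ∧ ∀ x : Matrix.SpecialLinearGroup n ℤ, x ^ P ∈ Γ := by
    refine ⟨Γ.index.factorial, Nat.factorial_pos _, fun x => ?_⟩
    refine Subgroup.pow_mem_of_index_ne_zero_of_dvd Subgroup.FiniteIndex.index_ne_zero x ?_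
    intro q hq hq'
    exact Nat.dvd_factorial hq hq'
  let x : n → Γ := fun j => ⟨T w (a j) (haw j) ^ P, hPΓ _⟩
  let y : n → Γ := fun j => ⟨T (b j) φ (hφb j) ^ P, hPΓ _⟩
  have hg1 : (g.1 ^ k).1 = 1 + N := by rw [hN]; abel
  have hcomm : ∀ (v f : n → ℤ) (h : f ⬝ᵥ v = 0), N *ᵥ v = 0 → f ᵥ* N = 0 →
      Commute (g.1 ^ k) (T v f h ^ P) := by
    intro v f h hv hf
    refine Commute.pow_right ?_ P
    apply Subtype.ext
    rw [Matrix.SpecialLinearGroup.coe_mul, Matrix.SpecialLinearGroup.coe_mul]
    change (g.1 ^ k).1 * (1 + vecMulVec v f) = (1 + vecMulVec v f) * (g.1 ^ k).1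
    have e1 : N * vecMulVec v f = 0 := by rw [mul_vecMulVec, hv, zero_vecMulVec]
    have e2 : vecMulVec v f * N = 0 := by rw [vecMulVec_mul, hf, vecMulVec_zero]
    rw [hg1, add_mul, mul_add, mul_add, add_mul, mul_add, mul_add, e1, e2, Matrix.one_mul,
      Matrix.one_mul, Matrix.one_mul, Matrix.mul_one, Matrix.mul_one]
    abel
  have hcx : ∀ j, Commute (g ^ k) (x j) := fun j => Subtype.ext (hcomm _ _ (haw j) hNw (haN j))
  have hcy : ∀ j, Commute (g ^ k) (y j) := fun j => Subtype.ext (hcomm _ _ (hφb j) (hNb j) hφN)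
  obtain ⟨C, hC⟩ := undistorted_of_hyperbolic ρ hyp' hx₀ hx₀'
    (Finset.univ.image x ∪ Finset.univ.image y) (by
      intro s hs
      rw [Finset.mem_union, Finset.mem_image, Finset.mem_image] at hs
      rcases hs with ⟨j, -, rfl⟩ | ⟨j, -, rfl⟩
      · exact hcx j
      · exact hcy j)
  have hxS : ∀ j, x j ∈ Finset.univ.image x ∪ Finset.univ.image y := fun j =>
    Finset.mem_union_left _ (Finset.mem_image_of_mem _ (Finset.mem_univ j))
  have hyS : ∀ j, y j ∈ Finset.univ.image x ∪ Finset.univ.image y := fun j =>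
    Finset.mem_union_right _ (Finset.mem_image_of_mem _ (Finset.mem_univ j))
  -- the word
  let word : ℕ → List Γ := fun t => (Finset.univ.toList.map fun j =>
    List.replicate t (y j) ++ (List.replicate t (x j) ++ (List.replicate t (y j)⁻¹ ++
      List.replicate t (x j)⁻¹))).flatten
  have hword1 : ∀ t, ∀ s ∈ word t, s ∈ Finset.univ.image x ∪ Finset.univ.image y ∨
      s⁻¹ ∈ Finset.univ.image x ∪ Finset.univ.image y := by
    intro t s hs
    obtain ⟨l, hl, hsl⟩ := List.mem_flatten.1 hs
    obtain ⟨j, -, rfl⟩ := List.mem_map.1 hl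
    simp only [List.mem_append, List.mem_replicate] at hsl
    rcases hsl with h | h | h | h
    · left; rw [h.2]; exact hyS j
    · left; rw [h.2]; exact hxS j
    · right; rw [h.2, inv_inv]; exact hyS j
    · right; rw [h.2, inv_inv]; exact hxS j
  have hword2 : ∀ t, (word t).length = Fintype.card n * (4 * t) := by
    intro t
    simp only [word, List.length_flatten, List.map_map]
    rw [show (List.length ∘ fun j => List.replicate t (y j) ++ (List.replicate t (x j) ++
      (List.replicate t (y j)⁻¹ ++ List.replicate t (x j)⁻¹))) = fun _ => 4 * t by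
        funext j
        simp only [Function.comp, List.length_append, List.length_replicate]
        ring]
    rw [List.map_const', List.sum_replicate, Finset.length_toList, Finset.card_univ,
      smul_eq_mul]
  have hword3 : ∀ t, (word t).prod = (g ^ k) ^ (m * (P * t) * (P * t) * d) := by
    intro t
    apply Subtype.ext
    have h3 : (((word t).prod : Γ) : Matrix.SpecialLinearGroup n ℤ) =
        (Finset.univ.toList.map fun j => T (b j) (a j) (hab j j) ^ (m * (P * t) * (P * t))).prod := by
      simp only [word, List.prod_flatten, List.map_map]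
      rw [← Subgroup.subtype_apply, map_list_prod, List.map_map]
      congr 1
      apply List.map_congr_left
      intro j _
      simp only [Function.comp, List.prod_append, List.prod_replicate, map_mul, map_pow, map_inv,
        Subgroup.subtype_apply]
      change (T (b j) φ (hφb j) ^ P) ^ t * ((T w (a j) (haw j) ^ P) ^ t *
        (((T (b j) φ (hφb j) ^ P)⁻¹) ^ t * ((T w (a j) (haw j) ^ P)⁻¹) ^ t)) = _
      rw [inv_pow, inv_pow, ← pow_mul, ← pow_mul]
      have h4 := T_comm (hφb j) (haw j) (hab j j) hφw (P * t)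
      generalize T (b j) φ (hφb j) ^ (P * t) = A at h4 ⊢
      generalize T w (a j) (haw j) ^ (P * t) = B at h4 ⊢
      rw [← mul_assoc, h4, mul_assoc, ← _root_.mul_inv_rev, mul_inv_cancel, mul_one]
    rw [h3]
    apply Subtype.ext
    rw [prod_T, hsum]
    have h5 : (((g ^ k) ^ (m * (P * t) * (P * t) * d) : Γ) :
        Matrix.SpecialLinearGroup n ℤ).1 = (1 + N) ^ (m * (P * t) * (P * t) * d) := by
      rw [← hg1]
      exact Matrix.SpecialLinearGroup.coe_pow _ _
    rw [h5, pow_aux h2, natCast_zsmul, smul_smul]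
  have hfin : ∀ t, m * (P * t) * (P * t) * d ≤ C * (Fintype.card n * (4 * t)) := by
    intro t
    have := hC (word t) (hword1 t) _ (hword3 t)
    rwa [hword2] at this
  have h6 := hfin (C * Fintype.card n * 4 + 1)
  set c := C * Fintype.card n * 4 with hc
  have h7 : (c + 1) * (c + 1) ≤ m * (P * (c + 1)) * (P * (c + 1)) * d := by
    calc (c + 1) * (c + 1) = 1 * (1 * (c + 1)) * (1 * (c + 1)) * 1 := by ring
      _ ≤ _ := by gcongr <;> assumption
  have h8 : C * (Fintype.card n * (4 * (c + 1))) = c * (c + 1) := by rw [hc]; ring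
  rw [h8] at h6
  nlinarith

end Pool.Agent.Results.MP_34eaa2_al.SquareZeroElements
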