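import Pool.Agent.Work.MP_34eaa2_al.SLThree

/-!
# MP_34eaa2_al: unipotent elements of SL(3, ℤ) never act hyperbolically

In every action of `SL(3, ℤ)` on a space with more than three points, no element with a
unipotent positive power is hyperbolic.
-/

open Topology Filter Matrix

namespace Pool.Agent.Results.MP_34eaa2_al.UnipotentElements

open Pool.Agent.Work.MP_34eaa2_al

variable {Γ : Type*} [Group Γ] {X : Type*} [TopologicalSpace X]

/-- `g` fixes the two points or exchanges them. -/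
private def Pres (ρ : Γ →* (X ≃ₜ X)) (α β : X) (g : Γ) : Prop :=
  (ρ g α = α ∧ ρ g β = β) ∨ (ρ g α = β ∧ ρ g β = α)

private theorem pres_of_conj [T2Space X] (ρ : Γ →* (X ≃ₜ X)) {α β : X} {u g : Γ}
    (hu : IsHyperbolicAt (ρ u) α β) (h : Pres ρ α β (g * u * g⁻¹)) : Pres ρ α β g := by
  have h1 : IsHyperbolicAt (ρ (g * u * g⁻¹)) (ρ g α) (ρ g β) := by
    rw [map_mul, map_mul, map_inv]
    exact hu.conj (ρ g)
  have hne : ρ g α ≠ ρ g β := h1.ne
  have h2 : α = ρ g α ∨ α = ρ g β := by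
    refine h1.mem_of_pair (q := β) ?_ ?_
    · rcases h with h | h
      · exact Or.inl h.1
      · exact Or.inr h.1
    · rcases h with h | h
      · exact Or.inr h.2
      · exact Or.inl h.2
  have h3 : β = ρ g α ∨ β = ρ g β := by
    refine h1.mem_of_pair (q := α) ?_ ?_
    · rcases h with h | h
      · exact Or.inl h.2
      · exact Or.inr h.2
    · rcases h with h | h
      · exact Or.inr h.1
      · exact Or.inl h.1
  rcases h2 with h2 | h2 <;> rcases h3 with h3 | h3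
  · exact absurd (h2.trans h3.symm) hu.ne
  · exact Or.inl ⟨h2.symm, h3.symm⟩
  · exact Or.inr ⟨h3.symm, h2.symm⟩
  · exact absurd (h2.trans h3.symm) hu.ne

private theorem pres_sq (ρ : Γ →* (X ≃ₜ X)) {α β : X} {g : Γ} (h : Pres ρ α β g) :
    ρ (g * g) α = α ∧ ρ (g * g) β = β := by
  simp only [map_mul, Homeomorph.mul_apply]
  rcases h with h | h
  · rw [h.1, h.1, h.2, h.2]
    exact ⟨rfl, rfl⟩
  · rw [h.1, h.2, h.1]
    exact ⟨rfl, rfl⟩

/-- The limit argument: if both `u` and `d u d⁻¹` are hyperbolic with the same pair of points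
then no third point is fixed by all `u ^ (2 n) (d u d⁻¹) ^ (2 n)`. -/
private theorem limit_argument [T2Space X] (ρ : Γ →* (X ≃ₜ X)) {α β p : X} {u v : Γ}
    (hu : IsHyperbolicAt (ρ u) α β) (hv : IsHyperbolicAt (ρ v) α β) (hp : p ≠ α) (hp' : p ≠ β)
    (h : ∀ n : ℕ, ρ (u ^ (2 * n) * v ^ (2 * n)) p = p) : False := by
  have h1 : Tendsto (fun n : ℕ => ((ρ v) ^ (2 * n)) p) atTop (𝓝 β) :=
    (hv.tendsto hp).comp (tendsto_id.const_mul_atTop' (by norm_num))
  have h2 : Tendsto (fun n : ℕ => ((ρ u)⁻¹ ^ (2 * n)) p) atTop (𝓝 α) :=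
    (hu.tendsto_inv hp').comp (tendsto_id.const_mul_atTop' (by norm_num))
  have h3 : (fun n : ℕ => ((ρ v) ^ (2 * n)) p) = fun n : ℕ => ((ρ u)⁻¹ ^ (2 * n)) p := by
    funext n
    have h4 := h n
    rw [map_mul, map_pow, map_pow, Homeomorph.mul_apply] at h4
    calc ((ρ v) ^ (2 * n)) p = (((ρ u)⁻¹ ^ (2 * n)) * (ρ u) ^ (2 * n)) (((ρ v) ^ (2 * n)) p) := by
          rw [inv_pow, inv_mul_cancel]
          rfl
      _ = ((ρ u)⁻¹ ^ (2 * n)) p := by rw [Homeomorph.mul_apply, h4]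
  rw [h3] at h1
  exact hu.ne (tendsto_nhds_unique h2 h1)

/-- A subset `{α, β}` that is invariant is fixed pointwise by the square. -/
private theorem sq_fix_of_maps (ρ : Γ →* (X ≃ₜ X)) {α β : X} (hne : α ≠ β) {s : Γ}
    (h1 : ρ s α = α ∨ ρ s α = β) (h2 : ρ s β = α ∨ ρ s β = β) :
    ρ (s * s) α = α ∧ ρ (s * s) β = β := by
  refine pres_sq ρ ?_
  rcases h1 with h1 | h1 <;> rcases h2 with h2 | h2
  · exact absurd ((ρ s).injective (h1.trans h2.symm)) hne
  · exact Or.inl ⟨h1, h2⟩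
  · exact Or.inr ⟨h1, h2⟩
  · exact absurd ((ρ s).injective (h1.trans h2.symm)) hne

private theorem conj_hyp (ρ : Γ →* (X ≃ₜ X)) {α β : X} {u g : Γ}
    (hu : IsHyperbolicAt (ρ u) α β) (h : ρ g α = α ∧ ρ g β = β) :
    IsHyperbolicAt (ρ (g * u * g⁻¹)) α β := by
  have h1 := hu.conj (ρ g)
  rw [h.1, h.2] at h1
  rwa [map_mul, map_mul, map_inv]

private theorem unitriangular [T2Space X] (hX : 3 < ENat.card X) (ρ : G3 →* (X ≃ₜ X))
    (a b c : ℤ) {α β : X} (hu : IsHyperbolicAt (ρ (U a b c)) α β) : False := by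
  obtain ⟨x₀, hx₀, hx₀'⟩ := exists_third hX α β
  have hne := hu.ne
  have fixc : ∀ {s : G3}, Commute (U a b c) s → ρ s α = α ∧ ρ s β = β := fun hs =>
    fix_of_commute ρ hu hx₀ hx₀' hs
  -- unitriangular matrices preserve the pair
  have PU : ∀ a' b' c' : ℤ, Pres ρ α β (U a' b' c') := by
    intro a' b' c'
    refine pres_of_conj ρ hu (Or.inl (fixc ?_))
    rw [U_inv, U_mul, U_mul]
    change _ * _ = _ * _
    rw [U_mul, U_mul]
    congr 1 <;> ring
  have hD1 : D1 * U a b c * D1⁻¹ = U (-a) (-b) c := by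
    rw [D1_conj, mul_inv_cancel_right]
  have hD2 : D2 * U a b c * D2⁻¹ = U (-a) b (-c) := by
    rw [D2_conj, mul_inv_cancel_right]
  have hD3 : D3 * U a b c * D3⁻¹ = U a (-b) (-c) := by
    rw [D3_conj, mul_inv_cancel_right]
  have PD1 : Pres ρ α β D1 := pres_of_conj ρ hu (by rw [hD1]; exact PU _ _ _)
  have PD2 : Pres ρ α β D2 := pres_of_conj ρ hu (by rw [hD2]; exact PU _ _ _)
  have PD3 : Pres ρ α β D3 := pres_of_conj ρ hu (by rw [hD3]; exact PU _ _ _)
  -- `D1` exchanges the two points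
  have nD1 : ¬ (ρ D1 α = α ∧ ρ D1 β = β) := by
    intro h
    have h1 := conj_hyp ρ hu h
    rw [hD1] at h1
    have hcomm : U a b c * U (-a) (-b) c = U (-a) (-b) c * U a b c := by
      rw [U_mul, U_mul]
      congr 1 <;> ring
    have h2 := hu.mul h1 (by
      change ρ _ * ρ _ = ρ _ * ρ _
      rw [← map_mul, ← map_mul, hcomm])
    rw [← map_mul, U_mul] at h2
    have h3 : U (a + -a) (b + -b) (c + c + a * -b) = U 0 0 (2 * c - a * b) := by
      congr 1 <;> ring
    rw [h3] at h2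
    generalize 2 * c - a * b = m at h2
    refine not_hyperbolic_of_heisenberg ρ (x := U m 0 0) (y := U 0 1 0) (k := 1) hx₀ hx₀' ?_ ?_
      one_pos ?_ h2
    · change _ * _ = _ * _
      rw [U_mul, U_mul]
      congr 1 <;> ring
    · change _ * _ = _ * _
      rw [U_mul, U_mul]
      congr 1 <;> ring
    · rw [pow_one, U_mul, U_mul, U_mul]
      congr 1 <;> ring
  have sD1 : ρ D1 α = β ∧ ρ D1 β = α := PD1.resolve_left nD1
  have e2' : ∀ b' c' : ℤ, U 0 b' c' * U 0 b' c' = U 0 (2 * b') (2 * c') := by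
    intro b' c'
    rw [U_mul, zero_mul, add_zero, add_zero, two_mul, two_mul]
  have e3' : ∀ a' c' : ℤ, U a' 0 c' * U a' 0 c' = U (2 * a') 0 (2 * c') := by
    intro a' c'
    rw [U_mul, mul_zero, add_zero, add_zero, two_mul, two_mul]
  -- the dichotomy for the first abelian group
  have dich2 : (¬ (ρ D2 α = α ∧ ρ D2 β = β)) ∨ (ρ D3 α = α ∧ ρ D3 β = β) := by
    by_cases hF : ∃ p, p ≠ α ∧ p ≠ β ∧ ∀ b' c' : ℤ, ρ (U 0 (2 * b') (2 * c')) p = p
    · left
      intro h
      obtain ⟨p, hp, hp', hfix⟩ := hF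
      have hv := conj_hyp ρ hu h
      refine limit_argument ρ hu hv hp hp' fun n => ?_
      obtain ⟨c', hc'⟩ := U_pow a b c (2 * n)
      have h1 : U a b c ^ (2 * n) * (D2 * U a b c * D2⁻¹) ^ (2 * n) =
          U 0 (2 * (2 * n * b)) (2 * (2 * n * n * a * b)) := by
        rw [conj_pow, hc', D2_conj, mul_inv_cancel_right, U_mul]
        congr 1 <;> push_cast <;> ring
      rw [h1]
      exact hfix _ _
    · right
      push Not at hF
      have hmem : ∀ p, (∀ b' c' : ℤ, ρ (U 0 (2 * b') (2 * c')) p = p) → p = α ∨ p = β := by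
        intro p hp
        by_contra hcon
        push Not at hcon
        obtain ⟨b', c', h⟩ := hF p hcon.1 hcon.2
        exact h (hp b' c')
      have hα : ∀ b' c' : ℤ, ρ (U 0 (2 * b') (2 * c')) α = α := by
        intro b' c'
        have h1 := (pres_sq ρ (PU 0 b' c')).1
        rwa [e2'] at h1
      have hβ : ∀ b' c' : ℤ, ρ (U 0 (2 * b') (2 * c')) β = β := by
        intro b' c'
        have h1 := (pres_sq ρ (PU 0 b' c')).2
        rwa [e2'] at h1
      have hS : ∀ p, (∀ b' c' : ℤ, ρ (U 0 (2 * b') (2 * c')) p = p) →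
          ∀ b' c' : ℤ, ρ (U 0 (2 * b') (2 * c')) (ρ S12 p) = ρ S12 p := by
        intro p hp b' c'
        rw [← Homeomorph.mul_apply, ← map_mul, S12_conj, map_mul, Homeomorph.mul_apply]
        have h1 := hp c' (-b')
        rw [show 2 * (-b') = -(2 * b') by ring] at h1
        rw [h1]
      have h1 := sq_fix_of_maps ρ hne (s := S12) (hmem _ (hS _ hα)) (hmem _ (hS _ hβ))
      rwa [S12_sq] at h1
  have dich3 : (¬ (ρ D3 α = α ∧ ρ D3 β = β)) ∨ (ρ D2 α = α ∧ ρ D2 β = β) := by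
    by_cases hF : ∃ p, p ≠ α ∧ p ≠ β ∧ ∀ a' c' : ℤ, ρ (U (2 * a') 0 (2 * c')) p = p
    · left
      intro h
      obtain ⟨p, hp, hp', hfix⟩ := hF
      have hv := conj_hyp ρ hu h
      refine limit_argument ρ hu hv hp hp' fun n => ?_
      obtain ⟨c', hc'⟩ := U_pow a b c (2 * n)
      have h1 : U a b c ^ (2 * n) * (D3 * U a b c * D3⁻¹) ^ (2 * n) =
          U (2 * (2 * n * a)) 0 (2 * (-(2 * n * n * a * b))) := by
        rw [conj_pow, hc', D3_conj, mul_inv_cancel_right, U_mul]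
        congr 1 <;> push_cast <;> ring
      rw [h1]
      exact hfix _ _
    · right
      push Not at hF
      have hmem : ∀ p, (∀ a' c' : ℤ, ρ (U (2 * a') 0 (2 * c')) p = p) → p = α ∨ p = β := by
        intro p hp
        by_contra hcon
        push Not at hcon
        obtain ⟨b', c', h⟩ := hF p hcon.1 hcon.2
        exact h (hp b' c')
      have hα : ∀ a' c' : ℤ, ρ (U (2 * a') 0 (2 * c')) α = α := by
        intro b' c'
        have h1 := (pres_sq ρ (PU b' 0 c')).1
        rwa [e3'] at h1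
      have hβ : ∀ a' c' : ℤ, ρ (U (2 * a') 0 (2 * c')) β = β := by
        intro b' c'
        have h1 := (pres_sq ρ (PU b' 0 c')).2
        rwa [e3'] at h1
      have hS : ∀ p, (∀ a' c' : ℤ, ρ (U (2 * a') 0 (2 * c')) p = p) →
          ∀ a' c' : ℤ, ρ (U (2 * a') 0 (2 * c')) (ρ S23 p) = ρ S23 p := by
        intro p hp a' c'
        rw [← Homeomorph.mul_apply, ← map_mul, S23_conj, map_mul, Homeomorph.mul_apply]
        have h1 := hp (-c') a'
        rw [show 2 * (-c') = -(2 * c') by ring] at h1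
        rw [h1]
      have h1 := sq_fix_of_maps ρ hne (s := S23) (hmem _ (hS _ hα)) (hmem _ (hS _ hβ))
      rwa [S23_sq] at h1
  -- the contradiction
  have hprod : ∀ x, ρ D1 x = ρ D2 (ρ D3 x) := by
    intro x
    rw [← Homeomorph.mul_apply, ← map_mul, D2_mul_D3]
  rcases dich2 with h2 | h2 <;> rcases dich3 with h3 | h3
  · have s2 := PD2.resolve_left h2
    have s3 := PD3.resolve_left h3
    refine nD1 ⟨?_, ?_⟩
    · rw [hprod, s3.1, s2.2]
    · rw [hprod, s3.2, s2.1]
  · exact h2 h3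
  · exact h3 h2
  · refine nD1 ⟨?_, ?_⟩
    · rw [hprod, h2.1, h3.1]
    · rw [hprod, h2.2, h3.2]

/-- **Theorem.** Let `SL(3, ℤ)` act by homeomorphisms on a Hausdorff space `X` with more than
three points. If `g ∈ SL(3, ℤ)` acts as a hyperbolic homeomorphism then no positive power of
`g` is unipotent. -/
theorem result {X : Type*} [TopologicalSpace X] [T2Space X] (hX : 3 < ENat.card X)
    (ρ : Matrix.SpecialLinearGroup (Fin 3) ℤ →* (X ≃ₜ X))
    (g : Matrix.SpecialLinearGroup (Fin 3) ℤ) (hg : IsHyperbolic (ρ g)) (k : ℕ) (hk : 0 < k) :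
    ((g ^ k).1 - 1) ^ 3 ≠ 0 := by
  intro hu
  obtain ⟨α, β, h⟩ := hg
  have h1 : IsHyperbolicAt (ρ (g ^ k)) α β := by
    rw [map_pow]
    exact h.pow hk
  obtain ⟨s, a, b, c, hs⟩ := exists_conj_unitriangular (g ^ k) hu
  have h2 := h1.conj (ρ s)
  rw [← map_inv, ← map_mul, ← map_mul, hs] at h2
  exact unitriangular hX ρ a b c h2

end Pool.Agent.Results.MP_34eaa2_al.UnipotentElements
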